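import Mathlib.GroupTheory.RegularWreathProduct
import Mathlib.GroupTheory.Solvable
import Mathlib.GroupTheory.Finiteness
import Mathlib.RingTheory.Binomial
import Mathlib.Tactic

/-!
Every finitely generated solvable group `G` of derived length `l` embeds in a two-generated
solvable group of derived length `l + 1`.

The ambient group is the unrestricted wreath product of `G` by `ℤ × ℤ`.  If `G` is generated by
`g 0, ..., g (n-1)`, the two generators are the translation `x` by `(1, 0)` and `y * f`, where `y`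
is the translation by `(0, 1)` and `f (i + n k, v) = g i ^ (B (i+1) k * B (n-1-i) v)` with `B j`
the integer valued polynomial `k ↦ choose (-k) j`.
-/

namespace Pool.Agent.Results.MP_5335f7_al.TwoGenerated

universe u

open scoped commutatorElement

/-- `B j k = choose (-k) j`. -/
noncomputable def B (j : ℕ) (k : ℤ) : ℤ := Ring.choose (-k) j

lemma B_zero (k : ℤ) : B 0 k = 1 := by
  simp [B]

lemma B_succ (j : ℕ) (k : ℤ) : B (j + 1) (k - 1) - B (j + 1) k = B j k := by
  have h := Ring.choose_succ_succ (-k) j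
  have h2 : -(k - 1) = -k + 1 := by ring
  simp only [B, h2, h]
  ring

/-- `BB j a k` is `B (j - a) k` when `a ≤ j` and `0` otherwise. -/
noncomputable def BB (j a : ℕ) (k : ℤ) : ℤ := if a ≤ j then B (j - a) k else 0

lemma BB_zero (j : ℕ) (k : ℤ) : BB j 0 k = B j k := by simp [BB]

lemma BB_succ (j a : ℕ) (k : ℤ) : BB j a (k - 1) - BB j a k = BB j (a + 1) k := by
  unfold BB
  by_cases h : a + 1 ≤ j
  · have h1 : a ≤ j := by omega
    have h2 : j - a = (j - (a + 1)) + 1 := by omega
    rw [if_pos h1, if_pos h1, if_pos h, h2, B_succ]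
  · rw [if_neg h]
    by_cases h1 : a ≤ j
    · have h2 : j - a = 0 := by omega
      rw [if_pos h1, if_pos h1, h2, B_zero, B_zero]; ring
    · rw [if_neg h1, if_neg h1]; ring

section construction

variable {G : Type u} [Group G]

/-- The unrestricted wreath product of `G` by `ℤ × ℤ`. -/
abbrev W (G : Type u) [Group G] : Type u := RegularWreathProduct G (Multiplicative (ℤ × ℤ))

/-- translation -/
def tr (a b : ℤ) : W G := ⟨1, Multiplicative.ofAdd (a, b)⟩

/-- base element -/
def bs (φ : ℤ → ℤ → G) : W G :=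
  ⟨fun q => φ (Multiplicative.toAdd q).1 (Multiplicative.toAdd q).2, 1⟩

lemma W_ext {a b : W G} (h1 : ∀ u v : ℤ, a.left (Multiplicative.ofAdd (u, v)) =
    b.left (Multiplicative.ofAdd (u, v))) (h2 : a.right = b.right) : a = b := by
  apply RegularWreathProduct.ext
  · funext q
    exact h1 (Multiplicative.toAdd q).1 (Multiplicative.toAdd q).2
  · exact h2

lemma bs_mul (φ ψ : ℤ → ℤ → G) : bs φ * bs ψ = bs (fun u v => φ u v * ψ u v) := by
  apply W_ext
  · intro u v
    simp [bs]
  · simp [bs]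

lemma bs_inv (φ : ℤ → ℤ → G) : (bs φ)⁻¹ = bs (fun u v => (φ u v)⁻¹) := by
  apply W_ext
  · intro u v
    simp [bs]
  · simp [bs]

lemma tr_mul (a b c d : ℤ) : (tr a b : W G) * tr c d = tr (a + c) (b + d) := by
  apply W_ext
  · intro u v
    simp [tr]
  · simp [tr, ← ofAdd_add]

lemma tr_inv (a b : ℤ) : (tr a b : W G)⁻¹ = tr (-a) (-b) := by
  apply W_ext
  · intro u v
    simp [tr]
  · simp [tr, ← ofAdd_neg]

lemma tr_pow (a b : ℤ) (m : ℕ) : (tr a b : W G) ^ m = tr (m * a) (m * b) := by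
  induction m with
  | zero =>
    apply W_ext
    · intro u v
      simp [tr]
    · simp [tr]; rfl
  | succ m ih =>
    rw [pow_succ, ih, tr_mul]
    congr 1 <;> push_cast <;> ring

lemma tr_conj (a b : ℤ) (φ : ℤ → ℤ → G) :
    tr a b * bs φ * (tr a b)⁻¹ = bs (fun u v => φ (u - a) (v - b)) := by
  apply W_ext
  · intro u v
    simp only [RegularWreathProduct.mul_left, RegularWreathProduct.mul_right,
      RegularWreathProduct.inv_left, tr, bs, Pi.mul_apply,
      Pi.one_apply, inv_one, Pi.inv_apply, one_mul, mul_one, toAdd_mul, toAdd_inv, toAdd_ofAdd,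
      Prod.fst_add, Prod.snd_add, Prod.fst_neg, Prod.snd_neg]
    congr 1 <;> ring
  · simp [tr, bs]

/-- elements `(u, v) ↦ g i ^ E i k v` where `u = i + n k`. -/
def el (g : ℕ → G) (n : ℕ) (E : ℕ → ℤ → ℤ → ℤ) : W G :=
  bs (fun u v => g (u % n).toNat ^ E (u % n).toNat (u / n) v)

lemma el_mul (g : ℕ → G) (n : ℕ) (E F : ℕ → ℤ → ℤ → ℤ) :
    el g n E * el g n F = el g n (fun i k v => E i k v + F i k v) := by
  unfold el
  rw [bs_mul]
  congr 1
  funext u v
  rw [zpow_add]

lemma el_inv (g : ℕ → G) (n : ℕ) (E : ℕ → ℤ → ℤ → ℤ) :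
    (el g n E)⁻¹ = el g n (fun i k v => - E i k v) := by
  unfold el
  rw [bs_inv]
  congr 1
  funext u v
  rw [zpow_neg]

lemma el_congr (g : ℕ → G) (n : ℕ) (hn : 0 < n) (E F : ℕ → ℤ → ℤ → ℤ)
    (h : ∀ i, i < n → ∀ k v, E i k v = F i k v) : el g n E = el g n F := by
  unfold el
  congr 1
  funext u v
  have h1 : 0 ≤ u % (n : ℤ) := Int.emod_nonneg u (by exact_mod_cast hn.ne')
  have h2 : u % (n : ℤ) < n := Int.emod_lt_of_pos u (by exact_mod_cast hn)
  rw [h]
  omega

lemma el_comm (g : ℕ → G) (n : ℕ) (E F : ℕ → ℤ → ℤ → ℤ) :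
    el g n E * el g n F = el g n F * el g n E := by
  rw [el_mul, el_mul]
  congr 1
  funext i k v
  ring

lemma X_conj (g : ℕ → G) (n : ℕ) (hn : 0 < n) (E : ℕ → ℤ → ℤ → ℤ) :
    tr (n : ℤ) 0 * el g n E * (tr (n : ℤ) 0)⁻¹ = el g n (fun i k v => E i (k - 1) v) := by
  unfold el
  rw [tr_conj]
  congr 1
  funext u v
  have h0 : (n : ℤ) ≠ 0 := by exact_mod_cast hn.ne'
  have h1 : (u - (n : ℤ)) % n = u % n := Int.sub_emod_right u n
  have h2 : (u - (n : ℤ)) / n = u / n - 1 := by
    have := Int.add_mul_ediv_right u (-1) h0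
    have h3 : u + -1 * (n : ℤ) = u - n := by ring
    rw [h3] at this
    rw [this]; ring
  rw [h1, h2, sub_zero]

lemma y_conj (g : ℕ → G) (n : ℕ) (E : ℕ → ℤ → ℤ → ℤ) :
    tr 0 1 * el g n E * (tr 0 1)⁻¹ = el g n (fun i k v => E i k (v - 1)) := by
  unfold el
  rw [tr_conj]
  congr 1
  funext u v
  rw [sub_zero]

lemma X_comm (g : ℕ → G) (n : ℕ) (hn : 0 < n) (E : ℕ → ℤ → ℤ → ℤ) :
    tr (n : ℤ) 0 * el g n E * (tr (n : ℤ) 0)⁻¹ * (el g n E)⁻¹ =
      el g n (fun i k v => E i (k - 1) v - E i k v) := by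
  rw [X_conj g n hn, el_inv, el_mul]
  congr 1

lemma yh_comm (g : ℕ → G) (n : ℕ) (D E : ℕ → ℤ → ℤ → ℤ) :
    (tr 0 1 * el g n D) * el g n E * (tr 0 1 * el g n D)⁻¹ * (el g n E)⁻¹ =
      el g n (fun i k v => E i k (v - 1) - E i k v) := by
  have h1 : (tr 0 1 * el g n D) * el g n E * (tr 0 1 * el g n D)⁻¹ =
      tr 0 1 * el g n E * (tr 0 1)⁻¹ := by
    rw [mul_inv_rev]
    calc (tr 0 1 * el g n D) * el g n E * ((el g n D)⁻¹ * (tr 0 1)⁻¹)
        = tr 0 1 * (el g n D * el g n E) * (el g n D)⁻¹ * (tr 0 1)⁻¹ := by group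
      _ = tr 0 1 * (el g n E * el g n D) * (el g n D)⁻¹ * (tr 0 1)⁻¹ := by rw [el_comm]
      _ = tr 0 1 * el g n E * (tr 0 1)⁻¹ := by group
  rw [h1, y_conj, el_inv, el_mul]
  congr 1

lemma yX_comm (g : ℕ → G) (n : ℕ) (hn : 0 < n) (D : ℕ → ℤ → ℤ → ℤ) :
    (tr 0 1 * el g n D)⁻¹ * tr (n : ℤ) 0 * (tr 0 1 * el g n D) * (tr (n : ℤ) 0)⁻¹ =
      el g n (fun i k v => D i (k - 1) v - D i k v) := by
  have h1 : (tr 0 1 * el g n D)⁻¹ * tr (n : ℤ) 0 * (tr 0 1 * el g n D) * (tr (n : ℤ) 0)⁻¹ =
      (el g n D)⁻¹ * (((tr 0 1)⁻¹ * (tr (n : ℤ) 0 * tr 0 1 * (tr (n : ℤ) 0)⁻¹)) *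
        (tr (n : ℤ) 0 * el g n D * (tr (n : ℤ) 0)⁻¹)) := by group
  have h2 : (tr (n : ℤ) 0 * tr 0 1 * (tr (n : ℤ) 0)⁻¹ : W G) = tr 0 1 := by
    rw [tr_inv, tr_mul, tr_mul]
    congr 1
    · ring
  rw [h1, h2, inv_mul_cancel, one_mul, X_conj g n hn, el_inv, el_mul]
  congr 1
  funext i k v
  ring

/-- The exponents of the function `f`. -/
noncomputable def D (n : ℕ) : ℕ → ℤ → ℤ → ℤ := fun i k v => B (i + 1) k * B (n - 1 - i) v

/-- The two-generated subgroup. -/
def H (g : ℕ → G) (n : ℕ) : Subgroup (W G) :=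
  Subgroup.closure {tr 1 0, tr 0 1 * el g n (D n)}

lemma x_mem (g : ℕ → G) (n : ℕ) : tr 1 0 ∈ H g n :=
  Subgroup.subset_closure (by simp)

lemma y_mem (g : ℕ → G) (n : ℕ) : tr 0 1 * el g n (D n) ∈ H g n :=
  Subgroup.subset_closure (by simp)

lemma X_mem (g : ℕ → G) (n m : ℕ) : tr (m : ℤ) 0 ∈ H g n := by
  have h := (H g n).pow_mem (x_mem g n) m
  rw [tr_pow] at h
  simpa using h

lemma comm_le (g : ℕ → G) (n : ℕ) : ⁅H g n, H g n⁆ ≤ H g n :=
  (H g n).commutator_le_self

lemma base_mem (g : ℕ → G) (n : ℕ) (hn : 0 < n) (a b : ℕ) :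
    el g n (fun i k v => BB i a k * BB (n - 1 - i) b v) ∈ ⁅H g n, H g n⁆ := by
  induction a with
  | zero =>
    induction b with
    | zero =>
      have h := yX_comm g n hn (D n)
      have h2 : el g n (fun i k v => BB i 0 k * BB (n - 1 - i) 0 v) =
          el g n (fun i k v => D n i (k - 1) v - D n i k v) := by
        congr 1
        funext i k v
        simp only [BB_zero, D]
        rw [← sub_mul, B_succ]
      rw [h2, ← h]
      have h3 := Subgroup.commutator_mem_commutator (H₁ := H g n) (H₂ := H g n)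
        ((H g n).inv_mem (y_mem g n)) (X_mem g n n)
      rw [commutatorElement_def, inv_inv] at h3
      exact h3
    | succ b ih =>
      have h := yh_comm g n (D n) (fun i k v => BB i 0 k * BB (n - 1 - i) b v)
      have h2 : el g n (fun i k v => BB i 0 k * BB (n - 1 - i) (b + 1) v) =
          el g n (fun i k v => (fun i k v => BB i 0 k * BB (n - 1 - i) b v) i k (v - 1) -
            (fun i k v => BB i 0 k * BB (n - 1 - i) b v) i k v) := by
        congr 1
        funext i k v
        simp only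
        rw [← mul_sub, BB_succ]
      rw [h2, ← h]
      have h3 := Subgroup.commutator_mem_commutator (H₁ := H g n) (H₂ := H g n)
        (y_mem g n) (comm_le g n ih)
      rw [commutatorElement_def] at h3
      exact h3
  | succ a ih =>
    have h := X_comm g n hn (fun i k v => BB i a k * BB (n - 1 - i) b v)
    have h2 : el g n (fun i k v => BB i (a + 1) k * BB (n - 1 - i) b v) =
        el g n (fun i k v => (fun i k v => BB i a k * BB (n - 1 - i) b v) i (k - 1) v -
          (fun i k v => BB i a k * BB (n - 1 - i) b v) i k v) := by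
      congr 1
      funext i k v
      simp only
      rw [← sub_mul, BB_succ]
    rw [h2, ← h]
    have h3 := Subgroup.commutator_mem_commutator (H₁ := H g n) (H₂ := H g n)
      (X_mem g n n) (comm_le g n ih)
    rw [commutatorElement_def] at h3
    exact h3

/-- The embedding `a ↦` (the function with value `a` on `n ∣ u` and `1` elsewhere). -/
def emb (n : ℕ) : G →* W G where
  toFun a := bs (fun u _ => if (n : ℤ) ∣ u then a else 1)
  map_one' := by
    apply W_ext
    · intro u v
      simp [bs]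
    · simp [bs]
  map_mul' a b := by
    rw [bs_mul]
    congr 1
    funext u v
    split_ifs <;> simp

lemma emb_injective (n : ℕ) : Function.Injective (emb (G := G) n) := by
  intro a b h
  have h1 := congrArg (fun w : W G => w.left 1) h
  simpa [emb, bs] using h1

lemma emb_gen_mem (g : ℕ → G) (n : ℕ) (i₀ : ℕ) (hi : i₀ < n) :
    emb n (g i₀) ∈ ⁅H g n, H g n⁆ := by
  have hn : 0 < n := by omega
  have hnZ : (0 : ℤ) < n := by exact_mod_cast hn
  have h := base_mem g n hn i₀ (n - 1 - i₀)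
  have h2 : el g n (fun i k v => BB i i₀ k * BB (n - 1 - i) (n - 1 - i₀) v) =
      el g n (fun i _ _ => if i = i₀ then 1 else 0) := by
    apply el_congr g n hn
    intro i hin k v
    unfold BB
    by_cases h3 : i = i₀
    · subst h3
      simp [B_zero]
    · rw [if_neg h3]
      by_cases h4 : i₀ ≤ i
      · have h5 : ¬ (n - 1 - i₀ ≤ n - 1 - i) := by omega
        rw [if_neg h5, mul_zero]
      · rw [if_neg h4, zero_mul]
  rw [h2] at h
  have hx : tr (i₀ : ℤ) 0 ∈ H g n := X_mem g n i₀
  have hcomm : ∀ w : H g n, (w : W G) ∈ ⁅H g n, H g n⁆ ↔ w ∈ commutator (H g n) := by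
    intro w
    rw [← (H g n).map_subtype_commutator]
    constructor
    · rintro ⟨w', hw', hw''⟩
      have : w' = w := (H g n).subtype_injective hw''
      rwa [← this]
    · intro hw
      exact ⟨w, hw, rfl⟩
  have key : emb n (g i₀) = (tr (i₀ : ℤ) 0)⁻¹ *
      el g n (fun i _ _ => if i = i₀ then 1 else 0) * ((tr (i₀ : ℤ) 0)⁻¹)⁻¹ := by
    rw [tr_inv]
    unfold el
    rw [tr_conj]
    change bs (fun u _ => if (n : ℤ) ∣ u then g i₀ else 1) = _
    congr 1
    funext u v
    have h1 : (0 : ℤ) ≤ (u - -(i₀ : ℤ)) % n := Int.emod_nonneg _ hnZ.ne'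
    have h2 : (u - -(i₀ : ℤ)) % n < n := Int.emod_lt_of_pos _ hnZ
    by_cases h3 : (n : ℤ) ∣ u
    · rw [if_pos h3]
      have h4 : (u - -(i₀ : ℤ)) % n = i₀ := by
        obtain ⟨c, rfl⟩ := h3
        have : (n : ℤ) * c - -(i₀ : ℤ) = i₀ + n * c := by ring
        rw [this, Int.add_mul_emod_self_left]
        apply Int.emod_eq_of_lt <;> omega
      rw [h4]
      simp
    · rw [if_neg h3]
      have h4 : ¬ (((u - -(i₀ : ℤ)) % n).toNat = i₀) := by
        intro h5
        apply h3
        have h6 : (u - -(i₀ : ℤ)) % n = i₀ := by omega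
        have h7 : (u - -(i₀ : ℤ)) % n = (i₀ : ℤ) % n := by
          rw [h6]
          symm
          apply Int.emod_eq_of_lt <;> omega
        have h8 := Int.ModEq.dvd (Int.ModEq.symm h7)
        have h9 : u - -(i₀ : ℤ) - i₀ = u := by ring
        rwa [h9] at h8
      simp only [if_neg h4, zpow_zero]
  rw [key]
  have h9 := (inferInstance : (commutator (H g n)).Normal).conj_mem
    ⟨_, comm_le g n h⟩ ((hcomm _).mp h) ⟨_, (H g n).inv_mem hx⟩
  exact (hcomm _).mpr h9

lemma emb_mem (g : ℕ → G) (n : ℕ) (hg : Subgroup.closure (g '' {i | i < n}) = ⊤) (a : G) :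
    emb n a ∈ ⁅H g n, H g n⁆ := by
  have h : (⊤ : Subgroup G) ≤ (⁅H g n, H g n⁆).comap (emb n) := by
    rw [← hg, Subgroup.closure_le]
    rintro _ ⟨i, hi, rfl⟩
    exact emb_gen_mem g n i hi
  exact h (Subgroup.mem_top a)

/-- The functions with values in the `k`-th derived subgroup. -/
def S (G : Type u) [Group G] (k : ℕ) : Subgroup (W G) where
  carrier := {w | w.right = 1 ∧ ∀ q, w.left q ∈ derivedSeries G k}
  one_mem' := by
    refine ⟨rfl, fun q => ?_⟩
    simp
  mul_mem' := by
    rintro a b ⟨ha, ha'⟩ ⟨hb, hb'⟩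
    refine ⟨by simp [ha, hb], fun q => ?_⟩
    simpa using mul_mem (ha' q) (hb' _)
  inv_mem' := by
    rintro a ⟨ha, ha'⟩
    refine ⟨by simp [ha], fun q => ?_⟩
    simpa using ha' _

lemma S_comm (k : ℕ) : ⁅S G k, S G k⁆ ≤ S G (k + 1) := by
  rw [Subgroup.commutator_le]
  rintro a ⟨ha, ha'⟩ b ⟨hb, hb'⟩
  refine ⟨by simp [commutatorElement_def, ha, hb], fun q => ?_⟩
  have : (⁅a, b⁆).left q = ⁅a.left q, b.left q⁆ := by
    simp [commutatorElement_def, ha, hb]
  rw [this, derivedSeries_succ]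
  exact Subgroup.commutator_mem_commutator (ha' q) (hb' q)

lemma derived_le_S (k : ℕ) : derivedSeries (W G) (k + 1) ≤ S G k := by
  induction k with
  | zero =>
    rw [derivedSeries_succ, derivedSeries_zero, Subgroup.commutator_le]
    rintro a - b -
    refine ⟨?_, fun q => by simp⟩
    have h : (⁅a, b⁆).right = ⁅a.right, b.right⁆ := by
      simp [commutatorElement_def]
    rw [h, commutatorElement_def]
    rw [mul_comm a.right b.right]
    group
  | succ k ih =>
    rw [derivedSeries_succ]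
    exact (Subgroup.commutator_mono ih ih).trans (S_comm k)

lemma derived_bot (l : ℕ) (h : derivedSeries G l = ⊥) : derivedSeries (W G) (l + 1) = ⊥ := by
  rw [eq_bot_iff]
  intro w hw
  obtain ⟨h1, h2⟩ := derived_le_S l hw
  rw [Subgroup.mem_bot]
  apply RegularWreathProduct.ext
  · funext q
    have := h2 q
    rw [h, Subgroup.mem_bot] at this
    simpa using this
  · simpa using h1

end construction

/-- Every finitely generated solvable group of derived length `l ≥ 1` embeds in a two-generated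
solvable group of derived length `l + 1`. -/
theorem result : ∀ l : ℕ, 1 ≤ l → ∀ (G : Type u) [Group G], Group.FG G →
    IsLeast {m : ℕ | derivedSeries G m = ⊥} l →
    ∃ (H : Type u) (_ : Group H),
      (∃ a b : H, Subgroup.closure {a, b} = (⊤ : Subgroup H)) ∧
      IsLeast {m : ℕ | derivedSeries H m = ⊥} (l + 1) ∧
      ∃ φ : G →* H, Function.Injective φ := by
  intro l hl G _ hfg hG
  -- generators
  obtain ⟨g, n, hg⟩ : ∃ (g : ℕ → G) (n : ℕ), Subgroup.closure (g '' {i | i < n}) = ⊤ := by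
    obtain ⟨s, hs⟩ := (Group.fg_def.mp hfg)
    classical
    refine ⟨fun i => if h : i < s.card then (s.equivFin.symm ⟨i, h⟩ : G) else 1, s.card, ?_⟩
    rw [← hs]
    congr 1
    ext a
    constructor
    · rintro ⟨i, hi, rfl⟩
      have hi' : i < s.card := hi
      simp only [dif_pos hi']
      exact (s.equivFin.symm ⟨i, hi'⟩).2
    · intro ha
      refine ⟨(s.equivFin ⟨a, ha⟩ : ℕ), (s.equivFin ⟨a, ha⟩).2, ?_⟩
      simp
  let j : G →* H g n := (emb n).codRestrict (H g n) (fun a => comm_le g n (emb_mem g n hg a))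
  have hj : Function.Injective j := by
    intro a b hab
    apply emb_injective n
    exact congrArg Subtype.val hab
  have hjc : ∀ a, j a ∈ derivedSeries (H g n) 1 := by
    intro a
    rw [derivedSeries_one]
    have h1 : (j a : W G) ∈ (commutator (H g n)).map (H g n).subtype := by
      rw [Subgroup.map_subtype_commutator]
      exact emb_mem g n hg a
    obtain ⟨c, hc, hc'⟩ := h1
    have : c = j a := Subtype.val_injective hc'
    rwa [← this]
  have hjk : ∀ k, (derivedSeries G k).map j ≤ derivedSeries (H g n) (k + 1) := by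
    intro k
    induction k with
    | zero =>
      rintro _ ⟨a, -, rfl⟩
      exact hjc a
    | succ k ih =>
      rw [derivedSeries_succ G, Subgroup.map_commutator, derivedSeries_succ _ (k + 1)]
      exact Subgroup.commutator_mono ih ih
  refine ⟨H g n, inferInstance, ⟨⟨_, x_mem g n⟩, ⟨_, y_mem g n⟩, ?_⟩, ⟨?_, ?_⟩, j, hj⟩
  · have h := Subgroup.closure_closure_coe_preimage
      (k := ({tr 1 0, tr 0 1 * el g n (D n)} : Set (W G)))
    have h2 : (Subtype.val ⁻¹' ({tr 1 0, tr 0 1 * el g n (D n)} : Set (W G)) : Set (H g n)) =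
        {⟨_, x_mem g n⟩, ⟨_, y_mem g n⟩} := by
      ext ⟨w, hw⟩
      simp [Subtype.ext_iff]
    rw [← h2]
    exact h
  · -- upper bound
    have h := map_derivedSeries_le_derivedSeries (H g n).subtype (l + 1)
    rw [derived_bot l hG.1] at h
    change derivedSeries (H g n) (l + 1) = ⊥
    rw [eq_bot_iff]
    intro w hw
    have h1 := h ⟨w, hw, rfl⟩
    rw [Subgroup.mem_bot] at h1 ⊢
    exact Subtype.val_injective h1
  · -- lower bound
    intro m hm
    have hm' : derivedSeries (H g n) m = ⊥ := hm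
    by_contra hlt
    have hlt' : m ≤ l := by omega
    have h1 : derivedSeries (H g n) (l - 1 + 1) = ⊥ := by
      have h2 : m ≤ l - 1 + 1 := by omega
      rw [eq_bot_iff, ← hm']
      exact derivedSeries_antitone _ h2
    have h3 := hjk (l - 1)
    rw [h1] at h3
    have h4 : derivedSeries G (l - 1) = ⊥ := by
      rw [eq_bot_iff]
      intro a ha
      have h5 := h3 ⟨a, ha, rfl⟩
      rw [Subgroup.mem_bot] at h5 ⊢
      apply hj
      rw [h5, map_one]
    have h5 := hG.2 h4
    omega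

end Pool.Agent.Results.MP_5335f7_al.TwoGenerated
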